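import Pool.Agent.H.MP_03548f_an.Ent
import Pool.Agent.Lib.helper9.Birkhoff

namespace Pool.Agent.H.MP_0c7e55_an

open MeasureTheory Set Filter Topology
open Pool.Agent.H.MP_03548f_an (ent ent_step ent_equiv ent_comp int_comp eps_ex)
open scoped symmDiff

section
variable {Ω Ω' Ω₂ Ω₃ : Type} [m' : MeasurableSpace Ω'] {Z : Ω → Ω'} {G H : Ω → ℝ}

def Cl (Z : Ω → Ω') (G : Ω → ℝ) : Prop :=
  ∃ g : Ω' → ℝ, Measurable g ∧ (∃ C, ∀ z, |g z| ≤ C) ∧ ∀ x, G x = g (Z x)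

lemma Cl.const (c : ℝ) : Cl Z fun _ => c := ⟨fun _ => c, measurable_const, ⟨_, fun _ => le_rfl⟩, fun _ => rfl⟩

lemma Cl.add : Cl Z G → Cl Z H → Cl Z fun x => G x + H x
  | ⟨g, a, ⟨C, b⟩, c⟩, ⟨g', a', ⟨C', b'⟩, c'⟩ => ⟨fun z => g z + g' z, a.add a',
    ⟨C + C', fun z => (abs_add_le _ _).trans (add_le_add (b z) (b' z))⟩, fun x => by simp only [c, c']⟩

lemma Cl.mul : Cl Z G → Cl Z H → Cl Z fun x => G x * H x
  | ⟨g, a, ⟨C, b⟩, c⟩, ⟨g', a', ⟨C', b'⟩, c'⟩ => ⟨fun z => g z * g' z, a.mul a',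
    ⟨C * C', fun z => (abs_mul _ _).trans_le (mul_le_mul (b z) (b' z) (abs_nonneg _)
      ((abs_nonneg _).trans (b z)))⟩, fun x => by simp only [c, c']⟩

lemma Cl.abs : Cl Z G → Cl Z fun x => |G x|
  | ⟨g, a, ⟨C, b⟩, c⟩ => ⟨fun z => |g z|, a.abs, ⟨C, by simpa using b⟩, fun x => by simp only [c]⟩

lemma Cl.sub (a : Cl Z G) (b : Cl Z H) : Cl Z fun x => G x - H x := by
  simpa [sub_eq_add_neg] using a.add ((Cl.const (-1)).mul b)

lemma Cl.prod {ι : Type} {s : Finset ι} {G : ι → Ω → ℝ} (h : ∀ i ∈ s, Cl Z (G i)) :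
    Cl Z fun x => ∏ i ∈ s, G i x := by
  classical
  induction s using Finset.induction_on with
  | empty => simpa using Cl.const 1
  | insert i s hi ih =>
    simpa [hi] using (h i (by simp)).mul (ih fun j hj => h j (by simp [hj]))

lemma Cl.sum {ι : Type} {s : Finset ι} {G : ι → Ω → ℝ} (h : ∀ i ∈ s, Cl Z (G i)) :
    Cl Z fun x => ∑ i ∈ s, G i x := by
  classical
  induction s using Finset.induction_on with
  | empty => simpa using Cl.const 0
  | insert i s hi ih =>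
    simpa [hi] using (h i (by simp)).add (ih fun j hj => h j (by simp [hj]))

lemma Cl.of [MeasurableSpace Ω₃] (h : Cl Z G) (r : Ω₂ → Ω) {Z₂ : Ω₂ → Ω₃} {s : Ω₃ → Ω'} (hs : Measurable s)
    (e : ∀ x, Z (r x) = s (Z₂ x)) : Cl Z₂ fun x => G (r x) :=
  let ⟨g, a, ⟨C, b⟩, c⟩ := h
  ⟨g ∘ s, a.comp hs, ⟨C, fun _ => b _⟩, fun x => (c _).trans (congrArg g (e x))⟩

lemma Cl.fin [Finite Ω'] [MeasurableSingletonClass Ω'] (g : Ω' → ℝ) : Cl Z fun x => g (Z x) :=
  let ⟨C, h⟩ := (finite_range fun z => |g z|).bddAbove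
  ⟨g, measurable_of_finite g, ⟨C, fun z => h ⟨z, rfl⟩⟩, fun _ => rfl⟩

variable [MeasurableSpace Ω] {μ : Measure Ω} [IsProbabilityMeasure μ]

lemma Cl.bm (h : Cl Z G) (hZ : Measurable Z) : Cl id G := h.of id hZ fun _ => rfl

lemma Cl.meas (h : Cl id G) : Measurable G :=
  let ⟨_, a, _, c⟩ := h
  funext c ▸ a

lemma Cl.int (h : Cl id G) : Integrable G μ :=
  let ⟨_, _, ⟨C, b⟩, c⟩ := h
  .of_bound h.meas.aestronglyMeasurable C (.of_forall fun x => by rw [c]; exact b _)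

lemma bm01 (a : Measurable G) (b : ∀ x, 0 ≤ G x ∧ G x ≤ 1) : Cl id G :=
  ⟨G, a, ⟨1, fun z => abs_le.2 ⟨by linarith [(b z).1], (b z).2⟩⟩, fun _ => rfl⟩

lemma ce (μ : Measure Ω) [IsProbabilityMeasure μ] (hZ : Measurable Z) (a : Measurable G)
    (b : ∀ x, 0 ≤ G x ∧ G x ≤ 1) : ∃ p, Cl Z p ∧ (∀ x, 0 ≤ p x ∧ p x ≤ 1) ∧ p =ᵐ[μ] μ[G | m'.comap Z] ∧
      ∀ H, Cl Z H → ∫ x, (G x - p x) * H x ∂μ = 0 := by
  obtain ⟨P, P1, P2⟩ := (stronglyMeasurable_condExp (m := m'.comap Z) (μ := μ)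
    (f := G)).measurable.exists_eq_measurable_comp
  have i := (bm01 a b).int (μ := μ)
  have e : (fun x => max 0 (min 1 (P (Z x)))) =ᵐ[μ] μ[G | m'.comap Z] := by
    filter_upwards [condExp_nonneg (m := m'.comap Z) (μ := μ) (.of_forall fun x => (b x).1),
      condExp_mono (m := m'.comap Z) i (integrable_const 1) (.of_forall fun x => (b x).2)] with x h k
    rw [condExp_const hZ.comap_le, P2] at k
    rw [P2] at h ⊢
    exact (congrArg _ (min_eq_right k)).trans (max_eq_right h)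
  have c : Cl Z fun x => max 0 (min 1 (P (Z x))) := ⟨fun z => max 0 (min 1 (P z)), by fun_prop,
    ⟨1, fun z => abs_le.2 ⟨le_max_of_le_left (by simp), by simp⟩⟩, fun _ => rfl⟩
  refine ⟨_, c, fun x => ⟨le_max_left _ _, by simp⟩, e, fun H hH => ?_⟩
  have j := ((hH.bm hZ).mul (bm01 a b)).int (μ := μ)
  have k := condExp_mul_of_stronglyMeasurable_left (m := m'.comap Z) (μ := μ) (f := H) (by
    obtain ⟨g, g1, -, g2⟩ := hH
    exact funext g2 ▸ (g1.comp (comap_measurable Z)).stronglyMeasurable) j i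
  simp only [sub_mul]
  rw [integral_sub ((bm01 a b).mul (hH.bm hZ)).int ((c.mul hH).bm hZ).int, sub_eq_zero]
  simp only [mul_comm _ (H _)]
  rw [← integral_condExp hZ.comap_le]
  refine integral_congr_ae (k.trans ?_)
  filter_upwards [e] with x h
  rw [h]
  rfl

end

variable {Λ : Type}

def sh (k : ℕ) (x : ℕ → Λ) : ℕ → Λ := fun n => x (n + k)

def Wd {m : ℕ} (f : Λ → Fin m) (n : ℕ) (x : ℕ → Λ) : Fin n → Fin m := fun i => f (x i)

def Z {m : ℕ} (f : Λ → Fin m) (t : ℕ) (x : ℕ → Λ) : ℕ → Fin m := fun j => f (x (j + t))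

lemma sh_sh (k l : ℕ) (x : ℕ → Λ) : sh k (sh l x) = sh (k + l) x := funext fun n => by simp [sh, add_assoc]

variable [MeasurableSpace Λ] [DiscreteMeasurableSpace Λ]

omit [DiscreteMeasurableSpace Λ] in
lemma msh (k : ℕ) : Measurable (sh (Λ := Λ) k) := measurable_pi_lambda _ fun _ => measurable_pi_apply _

lemma mlt {β : Type} [MeasurableSpace β] (f : Λ → β) (t : ℕ) : Measurable fun x : ℕ → Λ => f (x t) :=
  Measurable.of_discrete.comp (measurable_pi_apply t)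

lemma mW {m : ℕ} (f : Λ → Fin m) (n : ℕ) : Measurable (Wd f n) := measurable_pi_lambda _ fun i => mlt f i

lemma mZ {m : ℕ} (f : Λ → Fin m) (n : ℕ) : Measurable (Z f n) := measurable_pi_lambda _ fun _ => mlt f _

variable {μ : Measure (ℕ → Λ)} [IsProbabilityMeasure μ]

omit [DiscreteMeasurableSpace Λ] [IsProbabilityMeasure μ] in
lemma sh_mp (h : MeasurePreserving (sh 1) μ μ) (k : ℕ) : MeasurePreserving (sh k) μ μ := by
  induction k with
  | zero => exact MeasurePreserving.id μ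
  | succ k ih =>
    rw [show sh (k + 1) = sh (Λ := Λ) 1 ∘ sh k from funext fun x => by rw [Function.comp, sh_sh, add_comm]]
    exact h.comp ih

omit [DiscreteMeasurableSpace Λ] [IsProbabilityMeasure μ] in
lemma ish (h : MeasurePreserving (sh 1) μ μ) (k : ℕ) {G : (ℕ → Λ) → ℝ} (hG : Cl id G) :
    ∫ x, G (sh k x) ∂μ = ∫ x, G x ∂μ := by
  rw [← integral_map (msh k).aemeasurable hG.meas.aestronglyMeasurable, (sh_mp h k).map_eq]

def Pos (μ : Measure (ℕ → Λ)) : Prop :=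
  ∃ (m : ℕ) (f : Λ → Fin m) (c : ℝ) (l : ℕ), 0 < c ∧ ∃ᶠ n : ℕ in atTop, c * n ≤ ent μ (Wd f (n + l))

lemma no_growth {H : ℕ → ℝ} {c : ℝ} {l : ℕ} (hc : 0 < c) (h : ∃ᶠ n : ℕ in atTop, c * n ≤ H (n + l)) {T : ℕ}
    (hT : ∀ t, T ≤ t → H (t + 1) ≤ H t + c / 2) : False := by
  have h1 : ∀ k, T ≤ k → H k ≤ H T + k * (c / 2) := fun k hk => by
    induction k, hk using Nat.le_induction with
    | base => linarith [show 0 ≤ T * (c / 2) by positivity]
    | succ k hk ih =>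
      push_cast
      linarith [hT k hk]
  obtain ⟨n, a, b, e⟩ := (h.and_eventually ((eventually_ge_atTop T).and
    (tendsto_natCast_atTop_atTop.eventually_gt_atTop ((H T + l * (c / 2)) / (c / 2))))).exists
  rw [div_lt_iff₀ (by positivity)] at e
  have := h1 (n + l) (by omega)
  push_cast at this
  linarith

lemma innov_fwd (h : MeasurePreserving (sh 1) μ μ) {m : ℕ} (f : Λ → Fin m) {c : ℝ} (hc : 0 < c) {l : ℕ}
    (hH : ∃ᶠ n : ℕ in atTop, c * n ≤ ent μ (Wd f (n + l))) : ∃ a : Fin m, ∃ d : ℝ, 0 < d ∧ ∀ t, ∀ g : (Fin t → Fin m) → ℝ,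
      d ≤ ∫ x, ((if f (x t) = a then 1 else 0) - g (Wd f t x)) ^ 2 ∂μ := by
  by_contra! hcon
  obtain ⟨ε, hε, hε2⟩ := eps_ex m hc
  choose t g hg using fun a => hcon a (ε ^ 2) (by positivity)
  refine no_growth (H := fun n => ent μ (Wd f n)) hc hH (T := Finset.univ.sup t) fun n hn => ?_
  have hta : ∀ a, t a ≤ n := fun a => (Finset.le_sup (Finset.mem_univ a)).trans hn
  have e1 : ent μ (Wd f (n + 1)) = ent μ (fun x => (f (x n), Wd f n x)) := by
    rw [← ent_equiv μ (Fin.snocEquiv fun _ : Fin (n + 1) => Fin m).symm]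
    rfl
  have e2 := ent_step μ (mlt f n) (mW f n) hε
    (fun a u => g a fun i => u ⟨i + (n - t a), by have := i.2; have := hta a; omega⟩)
  have e3 : ∀ a, ∫ x, ((if f (x n) = a then 1 else 0) -
      g a fun i => Wd f n x ⟨i + (n - t a), by have := i.2; have := hta a; omega⟩) ^ 2 ∂μ ≤ ε ^ 2 := by
    intro a
    refine le_trans (le_of_eq ?_) (hg a).le
    rw [← int_comp μ ((mlt f (t a)).prodMk (mW f (t a))) (sh_mp h (n - t a))
      (fun p => ((if p.1 = a then 1 else 0) - g a p.2) ^ 2)]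
    congr 1
    funext x
    have : t a + (n - t a) = n := by have := hta a; omega
    simp only [sh, this]
    rfl
  have e4 := Finset.sum_le_sum fun a (_ : a ∈ Finset.univ) => e3 a
  rw [Finset.sum_const, Finset.card_univ, Fintype.card_fin, nsmul_eq_mul] at e4
  have e5 := div_le_div_of_nonneg_right e4 hε.le
  linarith

lemma innov_bwd (h : MeasurePreserving (sh 1) μ μ) {m : ℕ} (f : Λ → Fin m) {c : ℝ} (hc : 0 < c) {l : ℕ}
    (hH : ∃ᶠ n : ℕ in atTop, c * n ≤ ent μ (Wd f (n + l))) : ∃ a : Fin m, ∃ d : ℝ, 0 < d ∧ ∀ t, ∀ g : (Fin t → Fin m) → ℝ,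
      d ≤ ∫ x, ((if f (x 0) = a then 1 else 0) - g (Wd f t (sh 1 x))) ^ 2 ∂μ := by
  by_contra! hcon
  obtain ⟨ε, hε, hε2⟩ := eps_ex m hc
  choose t g hg using fun a => hcon a (ε ^ 2) (by positivity)
  refine no_growth (H := fun n => ent μ (Wd f n)) hc hH (T := Finset.univ.sup t) fun n hn => ?_
  have hta : ∀ a, t a ≤ n := fun a => (Finset.le_sup (Finset.mem_univ a)).trans hn
  have e1 : ent μ (Wd f (n + 1)) = ent μ (fun x => (f (x 0), Wd f n (sh 1 x))) := by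
    rw [← ent_equiv μ (Fin.consEquiv fun _ : Fin (n + 1) => Fin m).symm]
    rfl
  have e2 := ent_step μ (mlt f 0) ((mW f n).comp h.measurable) hε
    (fun a u => g a fun i => u ⟨i, by have := i.2; have := hta a; omega⟩)
  have e0 := ent_comp μ (mW f n) h
  have e3 : ∀ a, ∫ x, ((if f (x 0) = a then 1 else 0) -
      g a fun i => Wd f n (sh 1 x) ⟨i, by have := i.2; have := hta a; omega⟩) ^ 2 ∂μ ≤ ε ^ 2 :=
    fun a => (hg a).le
  have e4 := Finset.sum_le_sum fun a (_ : a ∈ Finset.univ) => e3 a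
  rw [Finset.sum_const, Finset.card_univ, Fintype.card_fin, nsmul_eq_mul] at e4
  have e5 := div_le_div_of_nonneg_right e4 hε.le
  simp only [Function.comp_def] at e2
  linarith

lemma i01 (p : Prop) [Decidable p] : (0 : ℝ) ≤ (if p then 1 else 0) ∧ (if p then 1 else 0) ≤ (1 : ℝ) := by
  split_ifs <;> simp

lemma sq_int {Ω Ω' : Type} [MeasurableSpace Ω] [MeasurableSpace Ω'] {μ : Measure Ω} [IsProbabilityMeasure μ]
    {Z : Ω → Ω'} (hZ : Measurable Z) {G p : Ω → ℝ} (hG : Cl id G) (hp : Cl Z p)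
    (h : ∀ H, Cl Z H → ∫ x, (G x - p x) * H x ∂μ = 0) :
    ∫ x, G x * (G x - p x) ∂μ = ∫ x, (G x - p x) ^ 2 ∂μ := by
  have a := hG.sub (hp.bm hZ)
  rw [← sub_zero (∫ x, G x * _ ∂μ), ← h p hp, ← integral_sub (hG.mul a).int (a.mul (hp.bm hZ)).int]
  exact integral_congr_ae (.of_forall fun x => by ring)

lemma YS (h : MeasurePreserving (sh 1) μ μ) (H : Pos μ) : ∃ (m : ℕ) (f : Λ → Fin m) (a : Fin m) (c : ℝ)
    (e : ℕ → (ℕ → Λ) → ℝ), 0 < c ∧ ∀ t, Cl (Wd f (t + 1)) (e t) ∧ (∀ y, |e t y| ≤ 1) ∧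
      (∀ G, Cl (Wd f t) G → ∫ y, e t y * G y ∂μ = 0) ∧
        c ≤ ∫ y, (if f (y t) = a then 1 else 0) * e t y ∂μ := by
  obtain ⟨m, f, c, l, c0, hc⟩ := H
  obtain ⟨a, d, d0, hd⟩ := innov_fwd h f c0 hc
  have k : ∀ t, Measurable fun y : ℕ → Λ => if f (y t) = a then (1 : ℝ) else 0 :=
    mlt fun l => if f l = a then (1 : ℝ) else 0
  choose p p1 p2 _ p4 using fun t => ce μ (mW f t) (k t) fun _ => i01 _
  refine ⟨m, f, a, d, fun t y => (if f (y t) = a then 1 else 0) - p t y, d0, fun t => ⟨.sub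
    (Cl.fin (Z := Wd f (t + 1)) fun w => if w (Fin.last t) = a then 1 else 0) ((p1 t).of id (s := fun w i => w i.castSucc)
      (measurable_of_finite _) fun _ => rfl), fun y => ?_, p4 t, ?_⟩⟩
  · rw [abs_le]
    constructor <;> linarith [p2 t y, i01 (f (y t) = a)]
  · rw [sq_int (mW f t) (bm01 (k t) fun _ => i01 _) (p1 t) (p4 t)]
    obtain ⟨g, -, -, g2⟩ := p1 t
    simpa [g2] using hd t g

lemma XS (h : MeasurePreserving (sh 1) μ μ) (H : Pos μ) : ∃ (m : ℕ) (f : Λ → Fin m) (a : Fin m)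
    (d : (ℕ → Λ) → ℝ), Cl (Z f 0) d ∧ (∀ y, |d y| ≤ 1) ∧ (∀ G, Cl (Z f 1) G → ∫ y, d y * G y ∂μ = 0) ∧
      0 < ∫ y, (if f (y 0) = a then 1 else 0) * d y ∂μ := by
  classical
  obtain ⟨m, f, c, l, c0, hc⟩ := H
  obtain ⟨a, d, d0, hd⟩ := innov_bwd h f c0 hc
  have k := mlt (fun l => if f l = a then (1 : ℝ) else 0) 0
  have k' := bm01 k fun _ => i01 _
  obtain ⟨p, p1, p2, -, p4⟩ := ce μ (mZ f 1) k fun _ => i01 _
  refine ⟨m, f, a, fun y => (if f (y 0) = a then 1 else 0) - p y, .sub ⟨fun w => if w 0 = a then 1 else 0,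
    mlt (fun l => if l = a then (1 : ℝ) else 0) 0, ⟨1, fun z => by beta_reduce; split_ifs <;> simp⟩, fun _ => rfl⟩
    (p1.of id (msh 1) fun _ => rfl), fun y => ?_, p4, ?_⟩
  · rw [abs_le]
    constructor <;> linarith [p2 y, i01 (f (y 0) = a)]
  rw [sq_int (mZ f 1) k' p1 p4]
  refine (integral_nonneg fun x => sq_nonneg _).lt_of_ne' fun z => ?_
  have i := k'.sub (p1.bm (mZ f 1))
  rw [integral_eq_zero_iff_of_nonneg (fun x => sq_nonneg _) (by simpa [sq] using (i.mul i).int)] at z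
  obtain ⟨P, P1, -, P2⟩ := p1
  haveI := Measure.isProbabilityMeasure_map (μ := μ) (mZ f 1).aemeasurable
  have mA := P1 (measurableSet_singleton 1)
  obtain ⟨C, hC, k⟩ := exists_measure_symmDiff_lt_of_generateFrom_isSetRing (μ := μ.map (Z f 1))
    isSetRing_measurableCylinders ⟨{univ}, countable_singleton _, singleton_subset_iff.2
      (univ_mem_measurableCylinders _), by simp⟩ generateFrom_measurableCylinders.symm mA
      (ENNReal.ofReal_pos.2 d0)
  have mC := mZ f 1 ((MeasurableSet.of_mem_measurableCylinders hC).symmDiff mA)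
  rw [Measure.map_apply (mZ f 1) ((MeasurableSet.of_mem_measurableCylinders hC).symmDiff mA)] at k
  obtain ⟨F, D, -, rfl⟩ := (mem_measurableCylinders _).1 hC
  refine (hd (F.sup id + 1) fun w => if (fun i : F => w ⟨i, Nat.lt_succ_of_le (Finset.le_sup (f := id) i.2)⟩) ∈ D
    then 1 else 0).not_gt (lt_of_eq_of_lt ?_ (ENNReal.toReal_lt_of_lt_ofReal k))
  rw [← measureReal_def, ← integral_indicator_one mC]
  refine integral_congr_ae ?_
  filter_upwards [z] with x hx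
  have e : P (Z f 1 x) = if f (x 0) = a then 1 else 0 := by
    rw [← P2]
    exact (sub_eq_zero.1 (pow_eq_zero_iff two_ne_zero |>.1 hx)).symm
  change (_ - if F.restrict (Z f 1 x) ∈ D then 1 else 0) ^ 2 = _
  by_cases u : f (x 0) = a <;> by_cases v : F.restrict (Z f 1 x) ∈ D <;>
    simp [indicator, mem_symmDiff, mem_cylinder, e, u, v]

end Pool.Agent.H.MP_0c7e55_an
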