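import Pool.Agent.H.MP_0c7e55_an.A

namespace Pool.Agent.H.MP_0c7e55_an

open MeasureTheory Set Filter Topology Finset

variable {Λ : Type} [MeasurableSpace Λ] [DiscreteMeasurableSpace Λ] {μ : Measure (ℕ → Λ)}
  [IsProbabilityMeasure μ] {m : ℕ} {f : Λ → Fin m} {d : (ℕ → Λ) → ℝ}

def R (d : (ℕ → Λ) → ℝ) (c : ℕ → ℝ) (k L : ℕ) (x : ℕ → Λ) : ℝ := ∏ t ∈ Ico k L, (1 + c t * d (sh t x))

omit [MeasurableSpace Λ] [DiscreteMeasurableSpace Λ] in
lemma Zs {G : (ℕ → Λ) → ℝ} {s t : ℕ} (k : ℕ) (h : Cl (Z f s) G) (e : t ≤ s + k) :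
    Cl (Z f t) fun x => G (sh k x) :=
  h.of _ (msh (s + k - t)) fun x => funext fun j => by
    simp only [Z, sh]
    congr 2
    omega

omit [MeasurableSpace Λ] [DiscreteMeasurableSpace Λ] in
lemma RZ (h : Cl (Z f 0) d) (c : ℕ → ℝ) (k L : ℕ) : Cl (Z f k) (R d c k L) :=
  .prod fun _ ht => (Cl.const _).add ((Cl.const _).mul (Zs _ h (by simpa using (mem_Ico.1 ht).1)))

omit [MeasurableSpace Λ] [DiscreteMeasurableSpace Λ] in
lemma R0 (h : ∀ y, |d y| ≤ 1) {c : ℕ → ℝ} (hc : ∀ t, |c t| ≤ 1) (k L : ℕ) (x) : 0 ≤ R d c k L x :=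
  prod_nonneg fun t _ => by
    linarith [(abs_le.1 ((abs_mul _ _).trans_le (mul_le_one₀ (hc t) (abs_nonneg _) (h (sh t x))))).1]

lemma peelX (h : Cl (Z f 0) d) {u : (ℕ → Λ) → ℝ} (hu : Cl id u) (c : ℕ → ℝ) {k L : ℕ} (hk : k ≤ L)
    (o : ∀ t < k, ∀ G, Cl (Z f (t + 1)) G → ∫ x, d (sh t x) * (u x * G x) ∂μ = 0) :
    ∫ x, u x * R d c 0 L x ∂μ = ∫ x, u x * R d c k L x ∂μ := by
  induction k with
  | zero => rfl
  | succ k ih =>
    have a := hu.mul ((RZ h c (k + 1) L).bm (mZ f _))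
    rw [ih (by omega) fun t ht => o t (by omega), ← add_zero (∫ x, u x * R d c (k + 1) L x ∂μ),
      ← mul_zero (c k), ← o k k.lt_succ_self _ (RZ h c (k + 1) L), ← integral_const_mul,
      ← integral_add a.int ((((Zs k h (Nat.zero_le _)).bm (mZ f 0)).mul a).int.const_mul _)]
    refine integral_congr_ae (.of_forall fun x => ?_)
    simp only [R]
    rw [prod_eq_prod_Ico_succ_bot hk]
    ring

lemma orth (h : MeasurePreserving (sh 1) μ μ) (h0 : Cl (Z f 0) d)
    (o : ∀ G, Cl (Z f 1) G → ∫ y, d y * G y ∂μ = 0) (t : ℕ) {G : (ℕ → Λ) → ℝ} (hG : Cl (Z f (t + 1)) G) :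
    ∫ x, d (sh t x) * G x ∂μ = 0 := by
  obtain ⟨g, a, b, c⟩ := hG
  have e : Cl (Z f 1) fun x => g (Z f 1 x) := ⟨g, a, b, fun _ => rfl⟩
  rw [← o _ e, ← ish h t ((h0.bm (mZ f 0)).mul (e.bm (mZ f 1)))]
  simp only [c]
  refine integral_congr_ae (.of_forall fun x => congrArg (fun z => d (sh t x) * g z) ?_)
  exact funext fun j => by simp [Z, sh, add_assoc, add_comm t]

lemma orthI (h : MeasurePreserving (sh 1) μ μ) (h0 : Cl (Z f 0) d)
    (o : ∀ G, Cl (Z f 1) G → ∫ y, d y * G y ∂μ = 0) {p : (ℕ → Λ) → ℝ} (hp : Cl id p)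
    (p1 : ∀ x, 0 ≤ p x ∧ p x ≤ 1) (p2 : ∀ x, p (sh 1 x) = p x) (t : ℕ) {G : (ℕ → Λ) → ℝ}
    (hG : Cl (Z f (t + 1)) G) : ∫ x, d (sh t x) * (p x * G x) ∂μ = 0 := by
  have p3 : ∀ k x, p (sh k x) = p x := fun k x => by
    induction k with
    | zero => rfl
    | succ k ih => rw [add_comm, ← sh_sh, p2, ih]
  have u0 : Cl (Z f t) fun x => d (sh t x) * G x :=
    (Zs t h0 (by simp)).mul (Zs 0 hG (by simp))
  generalize hc : ∫ x, d (sh t x) * (p x * G x) ∂μ = c
  set u := fun x => d (sh t x) * G x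
  have u1 := u0.bm (mZ f t)
  have u2 : ∀ k, Cl id fun x => u (sh k x) := fun k => u1.of _ (msh k) fun _ => rfl
  have a : ∀ k, ∫ x, p x * u (sh k x) ∂μ = c := fun k => by
    rw [← hc, ← ish h k (((Zs t h0 (Nat.zero_le _)).bm (mZ f 0)).mul (hp.mul (hG.bm (mZ f _))))]
    exact integral_congr_ae (.of_forall fun x => by simp only [u, p3]; ring)
  have b : ∀ k l, k < l → ∫ x, u (sh k x) * u (sh l x) ∂μ = 0 := fun k l e => by
    rw [← orth h h0 o (t + k) ((Zs k hG (by omega)).mul (Zs l u0 (by omega)))]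
    exact integral_congr_ae (.of_forall fun x => by simp only [u, sh_sh]; ring)
  have s : ∀ n : ℕ, ∫ x, (∑ k ∈ range n, u (sh k x)) ^ 2 ∂μ = n * ∫ x, u x * u x ∂μ := fun n => by
    simp only [sq, sum_mul_sum]
    rw [integral_finsetSum _ fun k _ => (Cl.sum fun l _ => (u2 k).mul (u2 l)).int, ← nsmul_eq_mul]
    refine (sum_congr rfl fun k hk => ?_).trans (by rw [sum_const, card_range])
    rw [integral_finsetSum _ fun l _ => ((u2 k).mul (u2 l)).int, sum_eq_single_of_mem k hk fun l _ e => ?_,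
      ish h k (u1.mul u1)]
    rcases e.lt_or_gt with e | e
    · simpa only [mul_comm] using b l k e
    · exact b k l e
  by_contra z
  obtain ⟨n, hn⟩ := exists_nat_gt ((∫ x, u x * u x ∂μ) / c ^ 2)
  rw [div_lt_iff₀ (by positivity)] at hn
  have U := Cl.sum (s := range n) fun k _ => u2 k
  have e : ∫ x, p x * ∑ k ∈ range n, u (sh k x) ∂μ = n * c := by
    simp only [mul_sum]
    rw [integral_finsetSum _ fun k _ => (hp.mul (u2 k)).int]
    simp [a]
  have k := integral_mono (μ := μ) ((hp.mul U).int.const_mul (2 * (n * c))) ((by simpa [sq] using (U.mul U).int :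
    Integrable (fun x => (∑ k ∈ range n, u (sh k x)) ^ 2) μ).add (integrable_const ((n * c) ^ 2))) fun x => by
      have := p1 x
      simp only [Pi.add_apply]
      nlinarith [sq_nonneg (∑ k ∈ range n, u (sh k x) - n * c * p x), mul_nonneg (sq_nonneg (n * c))
        (show 0 ≤ 1 - p x ^ 2 by nlinarith)]
  rw [integral_const_mul, e, integral_add' (by simpa [sq] using (U.mul U).int) (integrable_const _), s] at k
  have n0 : (0 : ℝ) < n := (pos_iff_pos_of_mul_pos ((integral_nonneg fun x =>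
    mul_self_nonneg _).trans_lt hn)).2 (by positivity)
  simp at k
  nlinarith

def Dp {β : Type} (L : ℕ) (F : (ℕ → Bool) → β) : Prop := ∀ y y', (∀ i < L, y i = y' i) → F y = F y'

lemma Dp.cl {L : ℕ} {F : (ℕ → Bool) → ℝ} (h : Dp L F) : Cl id F ∧ Continuous F := by
  have e : F = fun y => F (fun i => if k : i < L then (fun i : Fin L => y i) ⟨i, k⟩ else true) :=
    funext fun y => h _ _ fun i k => by simp [k]
  rw [e]
  exact ⟨(Cl.fin (Z := fun (y : ℕ → Bool) (i : Fin L) => y i) fun w => F fun i => if k : i < L then w ⟨i, k⟩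
    else true).bm (by fun_prop), (continuous_of_discreteTopology (f := fun w : Fin L → Bool => F fun i =>
      if k : i < L then w ⟨i, k⟩ else true)).comp (f := fun (y : ℕ → Bool) (i : Fin L) => y i)
        (by fun_prop)⟩

lemma Cl.dp {m t L : ℕ} {f : Bool → Fin m} {G : (ℕ → Bool) → ℝ} (h : Cl (Wd f t) G) (k : t ≤ L) : Dp L G :=
  fun y y' e => by
    obtain ⟨g, -, -, c⟩ := h
    rw [c, c, show Wd f t y = Wd f t y' from funext fun i => congrArg f (e i (i.2.trans_le k))]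

lemma peelY {ν : Measure (ℕ → Bool)} [IsProbabilityMeasure ν] {m : ℕ} {f : Bool → Fin m}
    {e : ℕ → (ℕ → Bool) → ℝ} (h : ∀ t, Cl (Wd f (t + 1)) (e t))
    (o : ∀ t G, Cl (Wd f t) G → ∫ y, e t y * G y ∂ν = 0) {v : (ℕ → Bool) → ℝ} {k l L : ℕ} (hk : k ≤ l)
    (hl : l ≤ L) (hv : Cl (Wd f l) v) (x : ℕ → Λ) :
    ∫ y, v y * R d (e · y) k L x ∂ν = ∫ y, v y * R d (e · y) k l x ∂ν := by
  have mono : ∀ {s t} {G : (ℕ → Bool) → ℝ}, Cl (Wd f s) G → s ≤ t → Cl (Wd f t) G := fun a b =>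
    a.of id (s := fun w i => w (i.castLE b)) (measurable_of_finite _) fun _ => rfl
  induction L, hl using Nat.le_induction with
  | base => rfl
  | succ L hl ih =>
    have a : Cl (Wd f L) fun y => v y * R d (e · y) k L x := (mono hv hl).mul (.prod fun t ht =>
      (Cl.const _).add ((mono (h t) (mem_Ico.1 ht).2).mul (.const _)))
    rw [← ih, ← add_zero (∫ y, v y * R d (e · y) k L x ∂ν), ← zero_mul (d (sh L x)), ← o L _ a,
      ← integral_mul_const, ← integral_add (a.bm (mW f L)).int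
        ((((h L).bm (mW f _)).mul (a.bm (mW f L))).int.mul_const _)]
    refine integral_congr_ae (.of_forall fun y => ?_)
    simp only [R]
    rw [prod_Ico_succ_top (hk.trans hl)]
    ring

lemma L1 (h : MeasurePreserving (sh 1) μ μ) {g : (ℕ → Λ) → ℝ} (a : Measurable g)
    (b : ∀ x, 0 ≤ g x ∧ g x ≤ 1) : ∃ p, Cl id p ∧ (∀ x, 0 ≤ p x ∧ p x ≤ 1) ∧ (∀ x, p (sh 1 x) = p x) ∧
      ∫ x, p x ∂μ = ∫ x, g x ∂μ ∧ ∀ η > 0, ∀ᶠ L : ℕ in atTop,
        ∫ x, |∑ i ∈ range L, g (sh i x) - L * p x| ∂μ ≤ η * L := by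
  have hZ : Measurable[_, MeasurableSpace.invariants (sh (Λ := Λ) 1)] id :=
    measurable_id.mono le_rfl (MeasurableSpace.invariants_le _)
  obtain ⟨p, p1, p2, p3, p4⟩ := ce (m' := MeasurableSpace.invariants (sh 1)) μ hZ a b
  have p0 := p1.bm (m' := MeasurableSpace.invariants (sh 1)) hZ
  have g0 := bm01 a b
  have it : ∀ i x, (sh (Λ := Λ) 1)^[i] x = sh i x := fun i x => by
    induction i with
    | zero => rfl
    | succ i ih => rw [Function.iterate_succ_apply', ih, sh_sh, add_comm]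
  refine ⟨p, p0, p2, fun x => ?_, ?_, fun η η0 => ?_⟩
  · obtain ⟨P, P1, -, P2⟩ := p1
    rw [P2, P2]
    exact congrFun (MeasurableSpace.comp_eq_of_measurable_invariants P1) x
  · have := p4 _ (Cl.const (m' := MeasurableSpace.invariants (sh 1)) 1)
    simp only [mul_one] at this
    rw [integral_sub g0.int p0.int] at this
    linarith
  have c : ∀ L : ℕ, Cl id fun x => |(L : ℝ)⁻¹ * ∑ i ∈ range L, g (sh i x) - p x| := fun L =>
    (((Cl.const _).mul (.sum fun i _ => g0.of _ (msh i) fun _ => rfl)).sub p0).abs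
  have t := tendsto_integral_of_dominated_convergence (μ := μ) (f := fun _ => (0 : ℝ)) (fun _ => 1)
    (fun L => (c L).meas.aestronglyMeasurable) (integrable_const _) (fun L => .of_forall fun x => by
      have u : 0 ≤ (L : ℝ)⁻¹ * ∑ i ∈ range L, g (sh i x) := mul_nonneg (by simp) (sum_nonneg fun _ _ => (b _).1)
      have v : (L : ℝ)⁻¹ * ∑ i ∈ range L, g (sh i x) ≤ 1 := inv_mul_le_one_of_le₀
        ((sum_le_card_nsmul _ _ 1 fun _ _ => (b _).2).trans_eq (by simp)) (by simp)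
      rw [Real.norm_eq_abs, abs_abs, abs_le]
      constructor <;> linarith [p2 x]) (by
    filter_upwards [Pool.Agent.Lib.helper9.Birkhoff.birkhoff h g0.int, p3] with x u v
    rw [MeasurableSpace.comap_id] at v
    simpa [birkhoffAverage, birkhoffSum, it, ← v] using (tendsto_sub_nhds_zero_iff.2 u).abs)
  filter_upwards [t.eventually_le_const (by simpa using η0), eventually_gt_atTop 0] with L u v
  have : (0 : ℝ) < L := by exact_mod_cast v
  refine le_trans (le_of_eq ?_) (mul_le_mul_of_nonneg_right u this.le)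
  rw [← integral_mul_const]
  refine integral_congr_ae (.of_forall fun x => ?_)
  beta_reduce
  rw [← abs_of_pos this, ← abs_mul, abs_of_pos this]
  congr 1
  field_simp

theorem KER (h : MeasurePreserving (sh 1) μ μ) (H : Pos μ) {ν : Measure (ℕ → Bool)} [IsProbabilityMeasure ν]
    (h' : MeasurePreserving (sh 1) ν ν) (H' : Pos ν) : ∃ (A : Set Λ) (φ : Λ → ℝ) (ψ : Bool → ℝ) (κ : ℝ),
      (∀ l, φ l = A.indicator 1 l - μ.real {x | x 0 ∈ A}) ∧ (∀ b, |ψ b| ≤ 1) ∧ 0 < κ ∧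
      ∀ (j : ℕ) (g : Fin j → (ℕ → Λ) → ℝ), (∀ k, Measurable (g k) ∧ ∀ x, 0 ≤ g k x ∧ g k x ≤ 1) →
        ∀ δ > 0, ∀ᶠ L : ℕ in atTop, ∃ ρ : (ℕ → Bool) → (ℕ → Λ) → ℝ, Dp L ρ ∧ (∀ y, Cl id (ρ y) ∧
          (∀ x, 0 ≤ ρ y x) ∧ ∫ x, ρ y x ∂μ = 1 ∧ ∀ k, |∫ x, (∑ i ∈ range L, g k (sh i x)) * ρ y x ∂μ -
            L * ∫ x, g k x ∂μ| ≤ δ * L) ∧
          κ * L ≤ ∫ y, ∫ x, (∑ t ∈ range L, φ (x t) * ψ (y t)) * ρ y x ∂μ ∂ν := by
  classical
  obtain ⟨m, f, a, d, d0, d1, d2, d3⟩ := XS h H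
  obtain ⟨m', f', a', c, e, c0, he⟩ := YS h' H'
  choose e0 e1 e2 e3 using he
  obtain ⟨φ, hφ⟩ : ∃ φ : Λ → ℝ, ∀ l, φ l = (if f l = a then 1 else 0) - μ.real {x | f (x 0) = a} :=
    ⟨_, fun _ => rfl⟩
  obtain ⟨ψ, hψ⟩ : ∃ ψ : Bool → ℝ, ∀ l, ψ l = if f' l = a' then 1 else 0 := ⟨_, fun _ => rfl⟩
  have φ0 : Cl (Z f 0) fun x => φ (x 0) := by
    simp only [hφ]
    exact .sub ⟨fun w => if w 0 = a then 1 else 0, mlt (fun l => if l = a then (1 : ℝ) else 0) 0,
      ⟨1, fun z => by beta_reduce; split_ifs <;> simp⟩, fun _ => rfl⟩ (.const _)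
  have φt : ∀ t, Cl (Z f t) fun x => φ (x t) := fun t => by simpa [sh] using Zs t φ0 (zero_add t).ge
  have φ1 : ∀ l, |φ l| ≤ 1 := fun l => by
    rw [hφ, abs_le]
    constructor <;> linarith [i01 (f l = a), measureReal_nonneg (μ := μ) (s := {x : ℕ → Λ | f (x 0) = a}),
      measureReal_le_one (μ := μ) (s := {x : ℕ → Λ | f (x 0) = a})]
  have ψ1 : ∀ l, |ψ l| ≤ 1 := fun l => by rw [hψ]; split_ifs <;> simp
  have i0 := bm01 (mlt (fun l => if f l = a then (1 : ℝ) else 0) 0) fun _ => i01 _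
  have φ2 : ∀ t, ∫ x, φ (x t) ∂μ = 0 := fun t => by
    refine (by simpa [sh] using ish h t (φ0.bm (mZ f 0)) : _ = _).trans ?_
    simp only [hφ]
    rw [integral_sub i0.int (integrable_const _), ← integral_indicator_one (s := {x : ℕ → Λ | f (x 0) = a})
      (mlt f 0 (measurableSet_singleton a))]
    simp [indicator]
  have φ3 : ∀ t, ∫ x, φ (x t) * d (sh t x) ∂μ = ∫ y, (if f (y 0) = a then 1 else 0) * d y ∂μ := fun t => by
    refine (by simpa [sh] using ish h t ((φ0.mul d0).bm (mZ f 0)) : _ = _).trans ?_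
    simp only [hφ, sub_mul]
    rw [integral_sub (i0.mul (d0.bm (mZ f 0))).int (((Cl.const _).mul d0).bm (mZ f 0)).int]
    simp only [mul_comm _ (d _), d2 _ (.const _), sub_zero]
  generalize ∫ y, (if f (y 0) = a then 1 else 0) * d y ∂μ = κ at d3 φ3
  refine ⟨{l | f l = a}, φ, ψ, κ * c / 2, fun l => by simp [hφ, indicator], ψ1, by positivity,
    fun j g hg δ δ0 => ?_⟩
  choose p p0 p1 p2 p3 p4 using fun k => L1 h (hg k).1 (hg k).2
  filter_upwards [eventually_all.2 fun k => p4 k (δ * (κ * c / 2) / (j + 1)) (by positivity),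
    eventually_gt_atTop 0] with L hL L0
  have Lp : (0 : ℝ) < L := by exact_mod_cast L0
  have R1 : ∀ c k, Cl id (R d c k L) := fun c k => (RZ d0 c k L).bm (mZ f _)
  have R2 : ∀ c, ∫ x, R d c 0 L x ∂μ = 1 := fun c => by
    simpa [R] using peelX (μ := μ) d0 (.const 1) c le_rfl fun t _ G hG => by simpa using orth h d0 d2 t hG
  have Rd : ∀ k, Dp L fun y => R d (e · y) k L := fun k y y' z => funext fun x => prod_congr rfl fun t ht => by
    simp only [(e0 t).dp (mem_Ico.1 ht).2 y y' z]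
  have fub : ∀ (u : (ℕ → Λ) → ℝ) (v : (ℕ → Bool) → ℝ) k, Cl id u → Cl id v →
      ∫ y, ∫ x, u x * (v y * R d (e · y) k L x) ∂μ ∂ν = ∫ x, u x * ∫ y, v y * R d (e · y) k L x ∂ν ∂μ :=
    fun u v k a b => by
      simp only [← integral_const_mul]
      exact integral_integral_swap (Cl.int ((a.of Prod.snd measurable_snd fun _ => rfl).mul ((b.of Prod.fst
        measurable_fst fun _ => rfl).mul (.prod fun t _ => (Cl.const _).add ((((e0 t).bm (mW f' _)).of Prod.fst
          measurable_fst fun _ => rfl).mul (((Zs t d0 (Nat.zero_le _)).bm (mZ f 0)).of Prod.snd measurable_snd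
            fun _ => rfl))))))
  have gs : ∀ k, Cl id fun x => ∑ i ∈ range L, g k (sh i x) := fun k =>
    .sum fun i _ => (bm01 (hg k).1 (hg k).2).of _ (msh i) fun _ => rfl
  obtain ⟨K, hK⟩ : ∃ K : Fin j → (ℕ → Bool) → ℝ, ∀ k y, K k y =
    |∫ x, (∑ i ∈ range L, g k (sh i x)) * R d (e · y) 0 L x ∂μ - L * ∫ x, g k x ∂μ| := ⟨_, fun _ _ => rfl⟩
  have Kd : ∀ k, Dp L (K k) := fun k y y' z => by simp only [hK, Rd 0 y y' z]
  have K1 : ∀ k, ∫ y, K k y ∂ν ≤ δ * (κ * c / 2) / (j + 1) * L := fun k => by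
    have b := (gs k).sub ((Cl.const L).mul (p0 k))
    refine le_trans (le_trans (integral_mono (Kd k).cl.1.int (Dp.cl (L := L) fun y y' z => by
      simp only [Rd 0 y y' z]).1.int fun y => ?_) (fub _ _ 0 b.abs (.const 1)).le) (le_trans (le_of_eq ?_) (hL k))
    · rw [hK, ← p3, show ∫ x, p k x ∂μ = ∫ x, p k x * R d (e · y) 0 L x ∂μ by
        simpa [R] using (peelX (L := L) d0 (p0 k) (e · y) le_rfl fun t _ G hG =>
          orthI h d0 d2 (p0 k) (p1 k) (p2 k) t hG).symm, ← integral_const_mul, ← integral_sub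
            ((gs k).mul (R1 _ _)).int (((p0 k).mul (R1 _ _)).int.const_mul _)]
      refine abs_integral_le_integral_abs.trans_eq (integral_congr_ae (.of_forall fun x => ?_))
      beta_reduce
      rw [← mul_assoc, ← sub_mul, abs_mul, abs_of_nonneg (R0 d1 (e1 · y) _ _ _), one_mul]
    · refine integral_congr_ae (.of_forall fun x => ?_)
      beta_reduce
      rw [peelY e0 e2 le_rfl L.zero_le (.const 1)]
      simp [R]
  have cs : ∀ y : ℕ → Bool, Cl id fun x : ℕ → Λ => ∑ t ∈ range L, φ (x t) * ψ (y t) := fun y =>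
    .sum fun t _ => ((φt t).bm (mZ f t)).mul (.const _)
  have cd : Dp L fun y (x : ℕ → Λ) => ∑ t ∈ range L, φ (x t) * ψ (y t) := fun y y' z =>
    funext fun x => sum_congr rfl fun t ht => by rw [z t (mem_range.1 ht)]
  have C1 : κ * c * L ≤ ∫ y, ∫ x, (∑ t ∈ range L, φ (x t) * ψ (y t)) * R d (e · y) 0 L x ∂μ ∂ν := by
    have ψt : ∀ t, Cl (Wd f' (t + 1)) fun y => ψ (y t) := fun t => by
      simp only [hψ]
      exact Cl.fin (Z := Wd f' (t + 1)) fun w => if w (Fin.last t) = a' then 1 else 0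
    have k : ∀ y, ∫ x, (∑ t ∈ range L, φ (x t) * ψ (y t)) * R d (e · y) 0 L x ∂μ =
        ∑ t ∈ range L, ∫ x, φ (x t) * (ψ (y t) * R d (e · y) t L x) ∂μ := fun y => by
      simp only [sum_mul]
      rw [integral_finsetSum _ fun t _ => ((((φt t).bm (mZ f t)).mul (.const _)).mul (R1 _ _)).int]
      refine sum_congr rfl fun t ht => ?_
      rw [peelX d0 (((φt t).bm (mZ f t)).mul (.const _)) _ (mem_range.1 ht).le fun s hs G hG =>
        orth h d0 d2 s (((Zs 0 (φt t) hs).mul (.const _)).mul hG)]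
      simp only [mul_assoc]
    simp only [k]
    rw [integral_finsetSum _ fun t ht => (Dp.cl (L := L) fun y y' z => by
      simp only [Rd t y y' z, z t (mem_range.1 ht)]).1.int]
    refine le_trans (by simp [mul_comm]) (card_nsmul_le_sum _ _ (κ * c) fun t ht => ?_)
    have q := (ψt t).bm (mW f' _)
    rw [fub _ _ _ ((φt t).bm (mZ f t)) q]
    simp only [peelY e0 e2 (Nat.le_add_right t 1) (mem_range.1 ht) (ψt t)]
    simp only [R, Nat.Ico_succ_singleton, Finset.prod_singleton,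
      mul_add, mul_one, ← mul_assoc, integral_add q.int ((q.mul ((e0 t).bm (mW f' _))).int.mul_const _),
      integral_mul_const]
    simp only [mul_right_comm _ (∫ _, _ ∂ν)]
    rw [integral_add (((φt t).bm (mZ f t)).int.mul_const _) ((((φt t).bm (mZ f t)).mul
      ((Zs t d0 (Nat.zero_le _)).bm (mZ f 0))).int.mul_const _), integral_mul_const, integral_mul_const, φ2, φ3,
      zero_mul, zero_add]
    exact mul_le_mul_of_nonneg_left (by simpa only [hψ] using e3 t) d3.le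
  have ρd : Dp L fun y x => if ∀ k, K k y ≤ δ * L then R d (e · y) 0 L x else 1 := fun y y' z => by
    simp only [Rd 0 y y' z, fun k => Kd k y y' z]
  refine ⟨_, ρd, fun y => ?_, ?_⟩
  · split_ifs with k
    · exact ⟨R1 _ _, R0 d1 (e1 · y) _ _, R2 _, fun i => hK i y ▸ k i⟩
    · refine ⟨.const _, fun _ => zero_le_one, by simp, fun i => ?_⟩
      simp only [mul_one]
      rw [integral_finsetSum _ fun t _ => Cl.int ((bm01 (hg i).1 (hg i).2).of (sh t) (msh t) fun _ => rfl)]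
      simp only [ish h _ (bm01 (hg i).1 (hg i).2)]
      simp
      positivity
  have i1 := (Dp.cl (L := L) (F := fun y => ∫ x, (∑ t ∈ range L, φ (x t) * ψ (y t)) * R d (e · y) 0 L x ∂μ)
    fun y y' z => by simp only [Rd 0 y y' z, congrFun (cd y y' z)]).1.int (μ := ν)
  have i2 := (Cl.sum (s := univ) fun k _ => (Kd k).cl.1).int (μ := ν)
  refine le_trans ?_ (integral_mono (i1.sub (i2.div_const δ)) (Dp.cl (L := L) fun y y' z => by
    simp only [congrFun (ρd y y' z), congrFun (cd y y' z)]).1.int fun y => ?_)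
  · rw [integral_sub' i1 (i2.div_const δ), integral_div, integral_finsetSum _ fun k _ => (Kd k).cl.1.int]
    have := sum_le_card_nsmul univ _ _ fun k _ => K1 k
    rw [card_univ, Fintype.card_fin, nsmul_eq_mul] at this
    have b : j * (δ * (κ * c / 2) / (j + 1) * L) ≤ κ * c / 2 * L * δ := by
      field_simp
      linarith
    linarith [(div_le_iff₀ δ0).2 (this.trans b)]
  have K0 : ∀ k, 0 ≤ K k y := fun k => hK k y ▸ abs_nonneg _
  simp only [Pi.sub_apply]
  split_ifs with k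
  · linarith [div_nonneg (sum_nonneg fun k (_ : k ∈ Finset.univ) => K0 k) δ0.le]
  · obtain ⟨k, hk⟩ := not_forall.1 k
    have u := (le_div_iff₀' δ0).2 ((not_le.1 hk).le.trans (single_le_sum (fun k _ => K0 k) (mem_univ k)))
    have v : ∫ x, (∑ t ∈ range L, φ (x t) * ψ (y t)) * R d (e · y) 0 L x ∂μ ≤ L := by
      refine (integral_mono ((cs y).mul (R1 _ _)).int ((R1 (e · y) 0).int.const_mul L) fun x =>
        mul_le_mul_of_nonneg_right ((sum_le_card_nsmul _ _ 1 fun t _ => (le_abs_self _).trans ((abs_mul _ _).trans_le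
          (mul_le_one₀ (φ1 _) (abs_nonneg _) (ψ1 _)))).trans_eq (by simp)) (R0 d1 (e1 · y) _ _ _)).trans_eq ?_
      rw [integral_const_mul, R2, mul_one]
    simp only [mul_one]
    rw [integral_finsetSum _ fun t _ => (((φt t).bm (mZ f t)).mul (.const _)).int]
    simp only [integral_mul_const, φ2, zero_mul, sum_const_zero]
    linarith

end Pool.Agent.H.MP_0c7e55_an
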