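import Pool.Agent.H.MP_0c7e55_an.B

namespace Pool.Agent.H.MP_0c7e55_an

open MeasureTheory Filter Topology Finset

lemma greedy {Ω ι : Type} [Fintype ι] (V : ℕ → Ω → ι → ℝ) {B : ℝ} (hB : ∀ t ω k, |V t ω k| ≤ B)
    (h : ∀ t (D : ι → ℝ), ∃ ω, ∑ k, D k * V t ω k ≤ 0) :
    ∃ ω : ℕ → Ω, ∀ n k, (∑ t ∈ range n, V t (ω t) k) ^ 2 ≤ n * (Fintype.card ι * B ^ 2) := by
  choose f hf using h
  let D : ℕ → ι → ℝ := fun n => n.rec 0 fun n D k => D k + V n (f n D) k
  have a : ∀ n k, D n k = ∑ t ∈ range n, V t (f t (D t)) k := fun n k => by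
    induction n with
    | zero => rfl
    | succ n ih => rw [sum_range_succ, ← ih]
  have b : ∀ n : ℕ, ∑ k, D n k ^ 2 ≤ n * (Fintype.card ι * B ^ 2) := fun n => by
    induction n with
    | zero => simp [D]
    | succ n ih =>
      have c := sum_le_card_nsmul univ _ _ fun k _ => sq_le_sq' (abs_le.1 (hB n (f n (D n)) k)).1
        (abs_le.1 (hB n (f n (D n)) k)).2
      have e : ∑ k, D (n + 1) k ^ 2 = ∑ k, D n k ^ 2 + 2 * ∑ k, D n k * V n (f n (D n)) k +
          ∑ k, V n (f n (D n)) k ^ 2 := by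
        rw [mul_sum, ← sum_add_distrib, ← sum_add_distrib]
        exact sum_congr rfl fun k _ => by simp only [D]; ring
      rw [card_univ, nsmul_eq_mul] at c
      push_cast
      linarith [hf n (D n)]
  exact ⟨fun t => f t (D t), fun n k => a n k ▸ (single_le_sum (fun k _ => sq_nonneg (D n k))
    (mem_univ k)).trans (b n)⟩

lemma blk (a : ℕ → ℝ) (p L n : ℕ) :
    ∑ t ∈ range n, ∑ i ∈ range L, a (p + t * L + i) = ∑ i ∈ Ico p (p + n * L), a i := by
  induction n with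
  | zero => simp
  | succ n ih =>
    rw [sum_range_succ, ih, ← sum_Ico_consecutive _ (show p ≤ p + n * L by omega)
      (show p + n * L ≤ p + (n + 1) * L by rw [add_mul]; omega), sum_Ico_eq_sum_range a (p + n * L),
      show p + (n + 1) * L - (p + n * L) = L by rw [add_mul]; omega]

lemma bnd {a : ℕ → ℝ} {c : ℝ} (h : ∀ i, |a i| ≤ c) {p q l : ℕ} (k : q ≤ p + l) : |∑ i ∈ Ico p q, a i| ≤ l * c :=
  (abs_sum_le_sum_abs _ _).trans ((sum_le_card_nsmul _ _ c fun i _ => h i).trans (by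
    rw [nsmul_eq_mul, Nat.card_Ico]
    exact mul_le_mul_of_nonneg_right (by exact_mod_cast by omega) ((abs_nonneg _).trans (h 0))))

lemma dec {a : ℕ → ℝ} (h : ∀ i, |a i| ≤ 1) {T p L N : ℕ} (h1 : T ≤ p) (h2 : p ≤ T + L) (h3 : 0 < L) :
    |∑ i ∈ Ico T N, a i - ∑ t ∈ range ((N - p) / L), ∑ i ∈ range L, a (p + t * L + i)| ≤ 2 * L := by
  rcases le_total N p with k | k
  · simpa [k] using (bnd h (k.trans h2)).trans (by simp; linarith [L.cast_nonneg (α := ℝ)])
  have u := Nat.div_mul_le_self (N - p) L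
  have v := Nat.lt_div_mul_add (a := N - p) h3
  rw [blk, ← sum_Ico_consecutive _ h1 k, ← sum_Ico_consecutive _ (show p ≤ p + (N - p) / L * L by omega)
    (show _ ≤ N by omega), add_left_comm, add_sub_cancel_left]
  linarith [abs_add_le (∑ i ∈ Ico T p, a i) (∑ i ∈ Ico (p + (N - p) / L * L) N, a i), bnd h h2,
    bnd h (show N ≤ p + (N - p) / L * L + L by omega)]

variable {Λ : Type} [MeasurableSpace Λ] [DiscreteMeasurableSpace Λ] {μ : Measure (ℕ → Λ)}
  [IsProbabilityMeasure μ]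

lemma ST {ν : Measure (ℕ → Bool)} {y : ℕ → Bool} {N : ℕ → ℕ} (hN : Tendsto N atTop atTop)
    (hν : ∀ c : C(ℕ → Bool, ℝ), Tendsto (fun k => (∑ i ∈ range (N k), c (sh i y)) / N k) atTop (𝓝 (∫ z, c z ∂ν)))
    {φ : Λ → ℝ} {ψ : Bool → ℝ} {κ δ : ℝ} (φ1 : ∀ l, |φ l| ≤ 1) (ψ1 : ∀ l, |ψ l| ≤ 1) (δ0 : 0 < δ)
    (δ1 : 6 * δ ≤ κ) {j ℓ : ℕ} {g : Fin j → (ℕ → Λ) → ℝ} (hg : ∀ k, Measurable (g k) ∧ ∀ x, 0 ≤ g k x ∧ g k x ≤ 1)
    (gl : ∀ k x x', (∀ i < ℓ, x i = x' i) → g k x = g k x')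
    (H : ∀ᶠ L : ℕ in atTop, ∃ ρ : (ℕ → Bool) → (ℕ → Λ) → ℝ, Dp L ρ ∧ (∀ y, Cl id (ρ y) ∧
      (∀ x, 0 ≤ ρ y x) ∧ ∫ x, ρ y x ∂μ = 1 ∧ ∀ k, |∫ x, (∑ i ∈ range L, g k (sh i x)) * ρ y x ∂μ -
        L * ∫ x, g k x ∂μ| ≤ δ * L) ∧
      κ * L ≤ ∫ y, ∫ x, (∑ t ∈ range L, φ (x t) * ψ (y t)) * ρ y x ∂μ ∂ν) :
    ∃ K : ℝ, 0 ≤ K ∧ ∀ T M : ℕ, ∃ (T' : ℕ) (w : ℕ → Λ), M ≤ T' ∧ ∀ x : ℕ → Λ, (∀ i, T ≤ i → i < T' → x i = w i) →
      (∀ k n, n ≤ T' → |∑ i ∈ Ico T n, (g k (sh i x) - ∫ x, g k x ∂μ)| ≤ 3 * δ * n + K) ∧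
        κ / 4 * T' ≤ ∑ i ∈ Ico T T', φ (x i) * ψ (y i) := by
  obtain ⟨L, ⟨ρ, ρ0, hρ, ρ5⟩, L0, L1⟩ := (H.and ((eventually_gt_atTop 0).and
    (tendsto_natCast_atTop_atTop.eventually_ge_atTop (ℓ / δ)))).exists
  choose ρ1 ρ2 ρ3 ρ4 using hρ
  have Lp : (0 : ℝ) < L := by exact_mod_cast L0
  rw [div_le_iff₀' δ0] at L1
  obtain ⟨u, hu⟩ : ∃ u : Option (Fin j) → (ℕ → Bool) → ℕ → (ℕ → Λ) → ℝ, ∀ z i x, u none z i x =
    φ (x i) * ψ (z i) ∧ ∀ k, u (some k) z i x = g k (sh i x) - ∫ x, g k x ∂μ :=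
    ⟨fun k z i x => k.elim (φ (x i) * ψ (z i)) fun k => g k (sh i x) - ∫ x, g k x ∂μ,
      fun _ _ _ => ⟨rfl, fun _ => rfl⟩⟩
  choose u0 u1 using hu
  have u2 : ∀ k z i x, |u k z i x| ≤ 1 := by
    rintro (_ | k) z i x
    · rw [u0, abs_mul]
      exact mul_le_one₀ (φ1 _) (abs_nonneg _) (ψ1 _)
    · have := integral_mono (μ := μ) (bm01 (hg k).1 (hg k).2).int (integrable_const 1) fun x => ((hg k).2 x).2
      rw [u1, abs_le]
      simp at this
      constructor <;> linarith [(hg k).2 (sh i x), integral_nonneg (μ := μ) (f := g k) fun x => ((hg k).2 x).1]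
  have u3 : ∀ k z, Cl id fun x => ∑ i ∈ range L, u k z i x := fun k z => .sum fun i _ => by
    rcases k with _ | k
    · exact funext (u0 z i) ▸ Cl.mul ⟨_, mlt φ i, ⟨1, fun _ => φ1 _⟩, fun _ => rfl⟩ (.const _)
    · exact (show u (some k) z i = _ from funext (u1 z i · k)) ▸ ((bm01 (hg _).1 (hg _).2).of (sh i) (msh i) fun _ => rfl).sub (.const _)
  have u4 : ∀ k z x, |∑ i ∈ range L, u k z i x| ≤ L := fun k z x => by
    simpa using bnd (u2 k z · x) (p := 0) (zero_add L).ge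
  obtain ⟨E, hE⟩ : ∃ E : Option (Fin j) → (ℕ → Bool) → ℝ, ∀ k z, E k z =
    ∫ x, (∑ i ∈ range L, u k z i x) * ρ z x ∂μ := ⟨_, fun _ _ => rfl⟩
  have E1 : ∀ k z, |E k z| ≤ L := fun k z => by
    rw [hE, ← mul_one (L : ℝ), ← ρ3 z, ← integral_const_mul]
    refine abs_integral_le_integral_abs.trans (integral_mono ((u3 k z).mul (ρ1 z)).abs.int
      ((ρ1 z).int.const_mul _) fun x => ?_)
    beta_reduce
    rw [abs_mul, abs_of_nonneg (ρ2 z x)]
    exact mul_le_mul_of_nonneg_right (u4 k z x) (ρ2 z x)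
  have E2 : ∀ k z, |E (some k) z| ≤ δ * L := fun k z => by
    simp only [hE, u1, sum_sub_distrib, sub_mul]
    rw [integral_sub ((Cl.sum fun i _ => (bm01 (hg _).1 (hg _).2).of (sh i) (msh i) fun _ => rfl).mul (ρ1 z)).int
      ((ρ1 z).int.const_mul _), integral_const_mul, ρ3]
    simpa using ρ4 z k
  have E3 : Dp L (E none) := fun z z' e => by
    simp only [hE, u0, ρ0 z z' e]
    exact integral_congr_ae (.of_forall fun x => congrArg (· * _) (sum_congr rfl fun t ht => by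
      rw [e t (mem_range.1 ht)]))
  obtain ⟨K, K0, hK⟩ : ∃ K : ℝ, 0 ≤ K ∧ ∀ (n : ℕ) (s : ℝ), s ^ 2 ≤ n * (Fintype.card (Option (Fin j)) *
      (L + L) ^ 2) → |s| ≤ δ * (n * L) + K := ⟨Fintype.card (Option (Fin j)) * L / δ, by positivity,
    fun n s hs => abs_le_of_sq_le_sq' (hs.trans (by
      generalize (Fintype.card (Option (Fin j)) : ℝ) = c
      nlinarith [sq_nonneg (δ * (n * L) - c * L / δ), show δ * (n * L) * (c * L / δ) = n * c * L ^ 2 by
        field_simp])) (by positivity) |> abs_le.2⟩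
  refine ⟨K + 2 * L, by positivity, fun T M => ?_⟩
  have κ0 : 0 < κ := by linarith
  obtain ⟨k, k1, k2, k3⟩ := (((hν ⟨_, E3.cl.2⟩).eventually_const_le (show (κ - δ) * L < _ from lt_of_lt_of_le
    (by nlinarith) (ρ5.trans_eq (by simp only [ContinuousMap.coe_mk, hE, u0])))).and
    ((hN.eventually_ge_atTop (M + L + T)).and ((tendsto_natCast_atTop_atTop.comp hN).eventually_ge_atTop
      ((T + 3 * L + K + κ / 4 * L) / (κ / 4))))).exists
  rw [Function.comp, div_le_iff₀ (by positivity)] at k3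
  generalize N k = n at k1 k2 k3
  have np : (0 : ℝ) < n := by exact_mod_cast by omega
  rw [le_div_iff₀ np, ContinuousMap.coe_mk] at k1
  have v1 := Nat.div_mul_le_self (n - T) L
  have v2 := Nat.lt_div_mul_add (a := n - T) L0
  generalize (n - T) / L = b at v1 v2
  obtain ⟨r, hr, r1⟩ := exists_le_of_sum_le (s := range L) (f := fun _ => (κ - δ) * n - T - L)
    (g := fun r => ∑ t ∈ range b, E none (sh (T + r + t * L) y)) (by simp [L0.ne']) (by
      rw [sum_comm, sum_const, card_range, nsmul_eq_mul]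
      simp only [add_right_comm T _ (_ * L)]
      rw [blk fun i => E none (sh i y)]
      rw [range_eq_Ico, ← sum_Ico_consecutive _ T.zero_le (show T ≤ n by omega), ← sum_Ico_consecutive _
        (show T ≤ T + b * L by omega) (show _ ≤ n by omega)] at k1
      nlinarith [(abs_le.1 (bnd (fun i => E1 none (sh i y)) (zero_add T).ge)).2,
        (abs_le.1 (bnd (fun i => E1 none (sh i y)) (show n ≤ T + b * L + L by omega))).2])
  rw [mem_range] at hr
  obtain ⟨ω, hω⟩ := greedy (fun t x k => ∑ i ∈ range L, u k (sh (T + r + t * L) y) i x -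
    E k (sh (T + r + t * L) y)) (fun t x k => (abs_sub _ _).trans (add_le_add (u4 ..) (E1 ..))) fun t D => by
      generalize sh (T + r + t * L) y = z
      by_contra! c
      have a : ∀ k, Cl id fun x => D k * (∑ i ∈ range L, u k z i x - E k z) * ρ z x := fun k =>
        ((Cl.const _).mul ((u3 k z).sub (.const _))).mul (ρ1 z)
      have e : ∫ x, ∑ k, D k * (∑ i ∈ range L, u k z i x - E k z) * ρ z x ∂μ = 0 := by
        rw [integral_finsetSum _ fun k _ => (a k).int]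
        refine sum_eq_zero fun k _ => ?_
        simp only [mul_assoc, integral_const_mul, sub_mul]
        rw [integral_sub ((u3 k z).mul (ρ1 z)).int ((ρ1 z).int.const_mul _), integral_const_mul, ρ3, ← hE]
        simp
      rw [integral_eq_zero_iff_of_nonneg (fun x => by
        simpa only [← sum_mul, Pi.zero_apply] using mul_nonneg (c x).le (ρ2 z x)) (Cl.sum fun k _ => a k).int] at e
      refine one_ne_zero ((ρ3 z).symm.trans (integral_eq_zero_of_ae ?_))
      filter_upwards [e] with x hx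
      rw [← sum_mul] at hx
      exact (mul_eq_zero.1 hx).resolve_left (c x).ne'
  refine ⟨T + r + b * L, fun i => ω ((i - (T + r)) / L) ((i - (T + r)) % L), by omega, fun x hx => ?_⟩
  have main : ∀ k n', n' ≤ T + r + b * L → |∑ i ∈ Ico T n', u k y i x - ∑ t ∈ range ((n' - (T + r)) / L),
      E k (sh (T + r + t * L) y)| ≤ 2 * δ * (((n' - (T + r)) / L : ℕ) * L) + K + 2 * L := fun k n' hn => by
    have a := dec (u2 k y · x) (N := n') (T.le_add_right r) (by omega) L0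
    have c : (n' - (T + r)) / L ≤ b := Nat.div_le_of_le_mul (by rw [mul_comm]; omega)
    generalize (n' - (T + r)) / L = b' at a c ⊢
    have e := hK _ _ (hω b' k)
    have s : |∑ t ∈ range b', (∑ i ∈ range L, u k y (T + r + t * L + i) x -
        ∑ i ∈ range L, u k (sh (T + r + t * L) y) i (ω t))| ≤ b' * (δ * L) := by
      refine (abs_sum_le_sum_abs _ _).trans ((sum_le_card_nsmul _ _ (δ * L) fun t ht => ?_).trans_eq (by simp))
      have z : ∀ i < L, x (T + r + t * L + i) = ω t i := fun i hi => by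
        have := Nat.mul_le_mul_right L ((mem_range.1 ht).trans_le c)
        rw [hx _ (by omega) (by rw [Nat.succ_mul] at this; omega)]
        beta_reduce
        rw [show T + r + t * L + i - (T + r) =
          i + L * t by rw [mul_comm]; omega, Nat.add_mul_div_left _ _ L0, Nat.add_mul_mod_self_left,
          Nat.div_eq_of_lt hi, Nat.mod_eq_of_lt hi, zero_add]
      rw [← sum_sub_distrib]
      rcases k with _ | k
      · rw [sum_eq_zero fun i hi => by simp [u0, z i (mem_range.1 hi), sh, add_comm i], abs_zero]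
        positivity
      rw [range_eq_Ico, ← sum_Ico_consecutive _ (L - ℓ).zero_le (L.sub_le ℓ), sum_eq_zero fun i hi => by
        rw [u1, u1, gl k _ (sh i (ω t)) fun l hl => by
          have := (mem_Ico.1 hi).2
          rw [sh, sh, ← z _ (by omega)]
          congr 1
          omega, sub_self], zero_add]
      refine (bnd (c := 1) (l := ℓ) (fun i => ?_) (by omega)).trans (by linarith)
      rw [u1, u1, abs_le]
      constructor <;> linarith [(hg k).2 (sh (T + r + t * L + i) x), (hg k).2 (sh i (ω t))]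
    simp only [sum_sub_distrib, abs_le] at a e s ⊢
    constructor <;> linarith [a.1, a.2, e.1, e.2, s.1, s.2]
  refine ⟨fun k n' hn => ?_, ?_⟩
  · have a := main (some k) n' hn
    have c : (((n' - (T + r)) / L : ℕ) : ℝ) * L ≤ n' := by
      exact_mod_cast (Nat.div_mul_le_self _ L).trans (Nat.sub_le _ _)
    have e := (abs_sum_le_sum_abs _ _).trans (sum_le_card_nsmul (range ((n' - (T + r)) / L)) _ _ fun t _ =>
      E2 k (sh (T + r + t * L) y))
    simp only [u1, abs_le, card_range, nsmul_eq_mul] at a e ⊢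
    constructor <;> nlinarith [a.1, a.2, e.1, e.2]
  · have a := (abs_le.1 (main none _ le_rfl)).1
    have c : (b : ℝ) * L + T ≤ n := by exact_mod_cast by omega
    have e : (r : ℝ) ≤ L := by exact_mod_cast hr.le
    simp only [u0, Nat.add_sub_cancel_left, Nat.mul_div_cancel _ L0] at a
    push_cast
    nlinarith [mul_le_mul_of_nonneg_left c δ0.le, mul_le_mul_of_nonneg_left c κ0.le, mul_nonneg δ0.le
      (T.cast_nonneg (α := ℝ)), mul_le_mul_of_nonneg_left e κ0.le, mul_le_mul_of_nonneg_right δ1 np.le]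

end Pool.Agent.H.MP_0c7e55_an
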