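import Pool.Agent.H.MP_0c7e55_an.C

namespace Pool.Agent.H.MP_0c7e55_an

open MeasureTheory Filter Topology Finset
open Pool.Agent.H.MP_03548f_an (ent pr ent_step eps_ex)
open scoped symmDiff

lemma ent_mono {Ω U V : Type} [MeasurableSpace Ω] (μ : Measure Ω) [IsProbabilityMeasure μ] [Fintype U]
    [Fintype V] [MeasurableSpace V] [MeasurableSingletonClass V] {W : Ω → V} (hW : Measurable W) (r : V → U) :
    ent μ (fun x => r (W x)) ≤ ent μ W := by
  classical
  rw [ent, ent, ← sum_fiberwise univ r]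
  refine sum_le_sum fun u _ => ?_
  have e : pr μ (fun x => r (W x)) u = ∑ v with r v = u, pr μ W v := by
    simp only [pr]
    rw [sum_measureReal_preimage_singleton _ fun _ _ => hW (measurableSet_singleton _)]
    congr 1
    ext
    simp
  rw [Real.negMulLog, e, neg_mul, sum_mul, ← sum_neg_distrib]
  refine sum_le_sum fun v hv => ?_
  rw [Real.negMulLog, neg_mul]
  rcases (measureReal_nonneg : 0 ≤ pr μ W v).eq_or_lt with k | k
  · rw [← show 0 = pr μ W v from k, zero_mul, zero_mul]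
  · exact neg_le_neg (mul_le_mul_of_nonneg_left (Real.log_le_log k (single_le_sum (f := fun v => pr μ W v)
      (fun _ _ => measureReal_nonneg) hv)) k.le)

variable {Λ : Type} [MeasurableSpace Λ] [DiscreteMeasurableSpace Λ] {μ : Measure (ℕ → Λ)}
  [IsProbabilityMeasure μ]

def Cy (Λ : Type) : Set (Set (ℕ → Λ)) := {s | ∃ (m : ℕ) (f : Λ → Fin m) (l : ℕ) (D : _), s = Wd f l ⁻¹' D}

omit [MeasurableSpace Λ] [DiscreteMeasurableSpace Λ] in
lemma common {ι : Type} [Fintype ι] {s : ι → Set (ℕ → Λ)} (h : ∀ i, s i ∈ Cy Λ) :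
    ∃ (m : ℕ) (f : Λ → Fin m) (l : ℕ) (D : ι → _), ∀ i, s i = Wd f l ⁻¹' D i := by
  classical
  choose m f l D h using h
  let e := Fintype.equivFin (∀ i, Fin (m i))
  exact ⟨_, fun a => e fun i => f i a, univ.sup l, fun i => (fun w j => e.symm (w (j.castLE
    (le_sup (mem_univ i)))) i) ⁻¹' D i, fun i => (h i).trans (by ext; simp [Wd]; rfl)⟩

lemma pos_of (h : MeasurePreserving (sh 1) μ μ) {k : ℕ} {P : (ℕ → Λ) → Fin k} (hP : Measurable P) {c : ℝ}
    (hc : 0 < c) (H : ∃ᶠ n : ℕ in atTop, c * n ≤ ent μ fun x (i : Fin n) => P (sh i x)) : Pos μ := by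
  classical
  obtain ⟨ε, ε0, ε1⟩ := eps_ex k hc
  have two : ∀ {s t}, s ∈ Cy Λ → t ∈ Cy Λ → ∃ (m : ℕ) (f : Λ → Fin m) (l : ℕ) (D D' : _),
      s = Wd f l ⁻¹' D ∧ t = Wd f l ⁻¹' D' := fun {s t} a b =>
    let ⟨m, f, l, D, e⟩ := common (s := fun i : Bool => cond i s t) (by simp [a, b])
    ⟨m, f, l, _, _, e true, e false⟩
  have mC : ∀ s ∈ Cy Λ, MeasurableSet s := by
    rintro _ ⟨m, f, l, D, rfl⟩
    exact mW f l (Set.toFinite D).measurableSet
  choose s s1 s2 using fun a => exists_measure_symmDiff_lt_of_generateFrom_isSetRing (μ := μ) (C := Cy Λ)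
    ⟨⟨1, 0, 0, ∅, rfl⟩, fun _ _ a b => by
      obtain ⟨m, f, l, D, D', rfl, rfl⟩ := two a b
      exact ⟨m, f, l, D ∪ D', rfl⟩, fun _ _ a b => by
      obtain ⟨m, f, l, D, D', rfl, rfl⟩ := two a b
      exact ⟨m, f, l, D \ D', rfl⟩⟩ ⟨{Set.univ}, Set.countable_singleton _, Set.singleton_subset_iff.2
      ⟨1, 0, 0, Set.univ, rfl⟩, by simp⟩ (le_antisymm (iSup_le fun i => by
        rintro _ ⟨A, -, rfl⟩
        exact MeasurableSpace.measurableSet_generateFrom ⟨2, fun a => if a ∈ A then 1 else 0, i + 1,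
          {w | w (Fin.last i) = 1}, by ext; simp [Wd]⟩) (MeasurableSpace.generateFrom_le mC))
    (hP (measurableSet_singleton a)) (ENNReal.ofReal_pos.2 (show 0 < ε ^ 2 by positivity))
  obtain ⟨m, f, l, D, hD⟩ := common s1
  refine ⟨m, f, c / 2, l, by positivity, H.mono fun n hn => ?_⟩
  have mN : ∀ t, Measurable fun x => (Wd f (n + l) x, fun i : Fin t => P (sh i x)) := fun t =>
    (mW f _).prodMk (measurable_pi_lambda _ fun i => hP.comp (msh _))
  have key : ∀ t ≤ n, ent μ (fun x => (Wd f (n + l) x, fun i : Fin t => P (sh i x))) ≤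
      ent μ (Wd f (n + l)) + t * (c / 2) := fun t ht => by
    induction t with
    | zero =>
      have b := ent_mono μ (mW f (n + l)) fun w => (w, (default : Fin 0 → Fin k))
      rw [Nat.cast_zero, zero_mul, add_zero]
      refine le_trans (le_of_eq ?_) b
      exact congrArg _ (funext fun x => Prod.ext rfl (Subsingleton.elim _ _))
    | succ t ih =>
      have a := ent_step μ (hP.comp (msh t)) (mN t) ε0 fun a u => if (fun j : Fin l => u.1 ⟨j + t, by omega⟩) ∈ D a
        then 1 else 0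
      have b := ent_mono μ ((hP.comp (msh t)).prodMk (mN t)) fun p => (p.2.1, (Fin.snoc p.2.2 p.1 : Fin (t + 1) → _))
      have e := sum_le_card_nsmul univ (fun a => ∫ x, ((if (P ∘ sh t) x = a then 1 else 0) -
          if (fun j : Fin l => Wd f (n + l) x ⟨j + t, by omega⟩) ∈ D a then 1 else 0 : ℝ) ^ 2 ∂μ) (ε ^ 2)
        fun a _ => by
          have u := (mC _ (s1 a)).symmDiff (hP (measurableSet_singleton a))
          refine le_trans (le_of_eq ?_) (ENNReal.toReal_lt_of_lt_ofReal (s2 a)).le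
          rw [← measureReal_def, ← (sh_mp h t).measureReal_preimage u.nullMeasurableSet,
            ← integral_indicator_one (msh t u)]
          refine integral_congr_ae (.of_forall fun x => ?_)
          change (_ - if Wd f l (sh t x) ∈ D a then 1 else 0) ^ 2 = _
          by_cases u : P (sh t x) = a <;> by_cases v : Wd f l (sh t x) ∈ D a <;>
            simp [Set.indicator, Set.mem_symmDiff, hD, u, v]
      rw [card_univ, Fintype.card_fin, nsmul_eq_mul] at e
      refine le_trans (le_of_eq ?_) (b.trans (a.trans ?_))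
      · exact congrArg _ (funext fun x => Prod.ext rfl (funext fun i => i.lastCases (by simp) (by simp)))
      push_cast
      linarith [ih (by omega), div_le_div_of_nonneg_right e ε0.le]
  linarith [key n le_rfl, ent_mono μ (mN n) Prod.snd]

open Classical in
noncomputable def fr (p : ℕ → Prop) (N : ℕ) : ℝ := (∑ i ∈ range N, if p i then 1 else 0) / N

lemma cls [Countable Λ] {z : ℕ → Λ} (h : ∀ a, Tendsto (fr fun i => z i = a) atTop (𝓝 (μ.real {x | x 0 = a})))
    (A : Set Λ) {φ : Λ → ℝ} (hφ : ∀ l, φ l = A.indicator 1 l - μ.real {x | x 0 ∈ A}) {ε : ℝ} (ε0 : 0 < ε) :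
    ∀ᶠ N : ℕ in atTop, |∑ i ∈ range N, φ (z i)| ≤ ε * N := by
  classical
  have lo : ∀ A : Set Λ, ∀ᶠ N : ℕ in atTop,
      (μ.real {x | x 0 ∈ A} - ε) * N ≤ ∑ i ∈ range N, A.indicator 1 (z i) := fun A => by
    have m : Monotone fun F : Finset Λ => {x : ℕ → Λ | x 0 ∈ F.filter (· ∈ A)} := fun F G k x hx =>
      filter_subset_filter _ k hx
    obtain ⟨F, hF⟩ := ((ENNReal.tendsto_toReal (measure_ne_top _ _)).comp (tendsto_measure_iUnion_atTop
      (μ := μ) m)).eventually_const_lt (sub_lt_self _ ε0) |>.exists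
    rw [show ⋃ F : Finset Λ, _ = {x : ℕ → Λ | x 0 ∈ A} from Set.ext fun x => by
      simpa using fun _ => ⟨{x 0}, by simp⟩] at hF
    have t := tendsto_finsetSum (F.filter (· ∈ A)) fun a _ => h a
    have e : ∑ c ∈ F with c ∈ A, μ.real {x | x 0 = c} = μ.real {x | x 0 ∈ F.filter (· ∈ A)} :=
      sum_measureReal_preimage_singleton (f := fun x : ℕ → Λ => x 0) _ fun a _ =>
        measurable_pi_apply 0 (measurableSet_singleton a)
    rw [e] at t
    filter_upwards [t.eventually_const_lt hF, eventually_gt_atTop 0] with N a b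
    simp only [fr, ← sum_div] at a
    refine ((lt_div_iff₀ (by exact_mod_cast b)).1 a).le.trans (sum_comm.trans_le (sum_le_sum fun i _ => ?_))
    by_cases u : z i ∈ A <;> simp [u]
    split_ifs <;> simp
  filter_upwards [lo A, lo Aᶜ] with N a b
  rw [show {x : ℕ → Λ | x 0 ∈ Aᶜ} = {x | x 0 ∈ A}ᶜ from rfl, probReal_compl_eq_one_sub
    (s := {x : ℕ → Λ | x 0 ∈ A}) (measurable_pi_apply 0 (MeasurableSet.of_discrete (s := A)))] at b
  simp only [hφ, Set.indicator_compl, Pi.sub_apply, sum_sub_distrib, sum_const, card_range, nsmul_eq_mul,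
    Pi.one_apply, abs_le] at b ⊢
  constructor <;> linarith

open Classical in
theorem main [Countable Λ] (h : MeasurePreserving (sh 1) μ μ) (H : Pos μ) {ν : Measure (ℕ → Bool)}
    [IsProbabilityMeasure ν] (h' : MeasurePreserving (sh 1) ν ν) (H' : Pos ν) {S : Set ℕ} (hS : S.Infinite)
    {N : ℕ → ℕ} (hN : Tendsto N atTop atTop) (hν : ∀ c : C(ℕ → Bool, ℝ), Tendsto (fun k =>
      (∑ i ∈ range (N k), c (sh i fun n => decide (n ∈ S))) / N k) atTop (𝓝 (∫ z, c z ∂ν))) :
    ∃ x : ℕ → Λ, (∀ (n : ℕ) (w : Fin n → Λ), Tendsto (fr fun i => ∀ k : Fin n, x (i + k) = w k) atTop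
      (𝓝 (μ.real {z | ∀ k : Fin n, z k = w k}))) ∧ ¬ ∀ a, Tendsto (fr fun i => x (Nat.nth (· ∈ S) i) = a)
        atTop (𝓝 (μ.real {x | x 0 = a})) := by
  obtain ⟨A, φ, ψ, κ, hφ, ψ1, κ0, hK⟩ := KER h H h' H'
  haveI : Nonempty (Σ n, Fin n → Λ) := ⟨⟨0, Fin.elim0⟩⟩
  obtain ⟨e, he⟩ := exists_surjective_nat (Σ n, Fin n → Λ)
  let g : ℕ → (ℕ → Λ) → ℝ := fun b x => if ∀ k : Fin (e b).1, x k = (e b).2 k then 1 else 0
  have mc : ∀ (n) (w : Fin n → Λ), MeasurableSet {x : ℕ → Λ | ∀ k : Fin n, x k = w k} := fun n w => by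
    rw [Set.ofPred_forall]
    exact .iInter fun k => measurable_pi_apply (k : ℕ) (measurableSet_singleton _)
  have hg : ∀ b, Measurable (g b) ∧ ∀ x, 0 ≤ g b x ∧ g b x ≤ 1 := fun b =>
    ⟨.ite (mc _ _) measurable_const measurable_const, fun _ => i01 _⟩
  have φ1 : ∀ l, |φ l| ≤ 1 := fun l => by
    have := measureReal_nonneg (μ := μ) (s := {x | x 0 ∈ A})
    have := measureReal_le_one (μ := μ) (s := {x | x 0 ∈ A})
    rw [hφ, abs_le]
    have := i01 (l ∈ A)
    rw [Set.indicator_apply, Pi.one_apply]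
    constructor <;> linarith
  obtain ⟨δ, hδ⟩ : ∃ δ : ℕ → ℝ, ∀ j, δ j = κ / 8 / (j + 1) := ⟨_, fun _ => rfl⟩
  have δ0 : ∀ j, 0 < δ j := fun j => by rw [hδ]; positivity
  have δ1 : ∀ j, δ j ≤ κ / 8 := fun j => hδ j ▸ div_le_self (by positivity) (by simp)
  have δ2 : ∀ j, δ (j + 1) ≤ δ j := fun j => by
    rw [hδ, hδ]
    gcongr
    simp
  choose K K0 T' w hM hw using fun j => ST hN hν φ1 ψ1 (δ0 j) (by linarith [δ1 j]) (j := j)
    (ℓ := univ.sup fun k : Fin j => (e k).1) (g := fun k => g k) (fun k => hg k) (fun k x x' u => if_congr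
      (forall_congr' fun i => by rw [u i (i.2.trans_le (le_sup (f := fun k : Fin j => (e k).1) (mem_univ k)))])
        rfl rfl) (hK j _ (fun k => hg k) _ (δ0 j))
  obtain ⟨M, hM'⟩ : ∃ M : ℕ → ℕ → ℕ, ∀ j t, t < M j t ∧ (t : ℝ) + K j + K (j + 1) ≤ δ j * M j t :=
    ⟨fun j t => ⌈(t + K j + K (j + 1)) / δ j⌉₊ + t + 1, fun j t => ⟨by beta_reduce; omega, (div_le_iff₀' (δ0 j)).1
      ((Nat.le_ceil _).trans (Nat.cast_le.2 (by beta_reduce; omega)))⟩⟩
  obtain ⟨T, T0, hT⟩ : ∃ T : ℕ → ℕ, T 0 = 0 ∧ ∀ j, T (j + 1) = T' j (T j) (M j (T j)) :=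
    ⟨fun j => j.rec 0 fun j t => T' j t (M j t), rfl, fun _ => rfl⟩
  have T1 : StrictMono T := strictMono_nat_of_lt_succ fun j => hT j ▸ (hM' j _).1.trans_le (hM j _ _)
  have T2 : ∀ j, (T j : ℝ) + K j + K (j + 1) ≤ δ j * T (j + 1) := fun j => hT j ▸ (hM' j _).2.trans
    (mul_le_mul_of_nonneg_left (Nat.cast_le.2 (hM j _ _)) (δ0 j).le)
  have ex : ∀ i, ∃ j, T j ≤ i ∧ i < T (j + 1) := fun i => by
    have a : ∃ j, i < T (j + 1) := ⟨i, (T1.le_apply.trans_lt (T1 i.lt_succ_self))⟩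
    refine ⟨Nat.find a, ?_, Nat.find_spec a⟩
    rcases hj : Nat.find a with _ | j
    · exact T0.trans_le i.zero_le
    · exact not_lt.1 (Nat.find_min a (hj ▸ j.lt_succ_self))
  choose J J1 J2 using ex
  obtain ⟨x, x1⟩ : ∃ x : ℕ → Λ, ∀ i, x i = w (J i) (T (J i)) (M (J i) (T (J i))) i := ⟨_, fun _ => rfl⟩
  have hx := fun j => hw j (T j) (M j (T j)) x fun i a b => by
    obtain rfl : J i = j := le_antisymm (Nat.lt_succ_iff.1 (T1.lt_iff_lt.1 ((J1 i).trans_lt (hT j ▸ b))))
      (Nat.lt_succ_iff.1 (T1.lt_iff_lt.1 (a.trans_lt (J2 i))))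
    exact x1 i
  simp only [← hT] at hx
  clear x1 hw hM hM' hT hK
  have gen : ∀ (n : ℕ) (w : Fin n → Λ), Tendsto (fr fun i => ∀ k : Fin n, x (i + k) = w k) atTop
      (𝓝 (μ.real {z | ∀ k : Fin n, z k = w k})) := fun n v => by
    obtain ⟨b, hb⟩ := he ⟨n, v⟩
    obtain ⟨rfl, hb⟩ := Sigma.mk.inj_iff.1 (show (⟨(e b).1, (e b).2⟩ : Σ n, Fin n → Λ) = _ from hb)
    obtain rfl := eq_of_heq hb
    rw [← integral_indicator_one (mc _ _), show Set.indicator _ 1 = g b from funext fun x => by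
      simp [g, Set.indicator]]
    refine Metric.tendsto_atTop.2 fun ε ε0 => ?_
    obtain ⟨j, j1, j2⟩ := (((tendsto_const_div_atTop_nhds_zero_nat (κ / 8)).comp (tendsto_add_atTop_nat 1)
      |>.eventually_lt_const (show 0 < ε / 7 by positivity)).and (eventually_gt_atTop b)).exists
    refine ⟨T (j + 1), fun n hn => ?_⟩
    obtain ⟨l, hl⟩ := Nat.exists_eq_add_one_of_ne_zero (n := J n) fun k => by
      have := T1.lt_iff_lt.1 (hn.trans_lt (J2 n))
      omega
    have a1 := J1 n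
    have a2 := J2 n
    rw [hl] at a1 a2
    have jl : j ≤ l := by
      have := T1.lt_iff_lt.1 (hn.trans_lt a2)
      omega
    have np : (0 : ℝ) < n := by exact_mod_cast (T0.ge.trans_lt (T1 l.succ_pos)).trans_le a1
    have b1 := (hx l).1 ⟨b, by omega⟩ _ le_rfl
    have b2 := (hx (l + 1)).1 ⟨b, by omega⟩ _ a2.le
    have b3 := bnd (a := fun i => g b (sh i x) - ∫ x, g b x ∂μ) (c := 1) (fun i => by
      have := integral_mono (μ := μ) (bm01 (hg b).1 (hg b).2).int (integrable_const 1) fun x => ((hg b).2 x).2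
      simp at this
      rw [abs_le]
      constructor <;> linarith [(hg b).2 (sh i x), integral_nonneg (μ := μ) (f := g b) fun x => ((hg b).2 x).1])
      (zero_add (T l)).ge
    have b4 : δ l < ε / 7 := by
      refine lt_of_le_of_lt ?_ j1
      simp only [hδ, Function.comp]
      gcongr
      push_cast
      linarith [(Nat.cast_le (α := ℝ)).2 jl]
    have b5 := sum_Ico_consecutive (fun i => g b (sh i x) - ∫ x, g b x ∂μ) (T l).zero_le (T1 l.lt_succ_self).le
    have b6 := sum_Ico_consecutive (fun i => g b (sh i x) - ∫ x, g b x ∂μ) (T (l + 1)).zero_le a1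
    have b7 : (T (l + 1) : ℝ) ≤ n := by exact_mod_cast a1
    rw [← b5, ← range_eq_Ico n, sum_sub_distrib _ _ (s := range n), sum_const, card_range, nsmul_eq_mul] at b6
    rw [Real.dist_eq, fr, show ∑ i ∈ range n, _ = ∑ i ∈ range n, g b (sh i x) from sum_congr rfl fun i _ => by
      simp [g, sh, add_comm i], div_sub' np.ne', abs_div, abs_of_pos np, div_lt_iff₀ np, ← b6]
    refine (abs_add_three _ _ _).trans_lt ?_
    simp only [Nat.succ_eq_add_one] at b1 b2 ⊢
    linarith [T2 l, mul_le_mul_of_nonneg_right (δ2 l) np.le, mul_le_mul_of_nonneg_left b7 (δ0 l).le,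
      mul_lt_mul_of_pos_right b4 np]
  refine ⟨x, gen, fun hs => ?_⟩
  have c1 := cls (z := x) (fun a => by simpa using gen 1 fun _ => a) A hφ (show 0 < κ / 40 by positivity)
  have c2 := (tendsto_atTop_atTop_of_monotone (Nat.count_monotone (· ∈ S)) fun b =>
    ⟨_, (Nat.count_nth_of_infinite hS b).ge⟩).eventually (cls hs A hφ (show 0 < κ / 40 by positivity))
  obtain ⟨j, a, b⟩ := ((T1.tendsto_atTop.comp (tendsto_add_atTop_nat 1)).eventually (c1.and c2)).exists
  have c : ∀ n, ∑ i ∈ range n, φ (x i) * ψ (decide (i ∈ S)) = ψ false * ∑ i ∈ range n, φ (x i) +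
      (ψ true - ψ false) * ∑ i ∈ range (Nat.count (· ∈ S) n), φ (x (Nat.nth (· ∈ S) i)) := fun n => by
    induction n with
    | zero => simp
    | succ n ih =>
      rw [sum_range_succ, sum_range_succ, ih, Nat.count_succ]
      by_cases u : n ∈ S
      · simp only [u, if_true, sum_range_succ, Nat.nth_count u, decide_true]
        ring
      · simp only [u, if_false, add_zero, decide_false]
        ring
  have d1 := (hx j).2
  have d2 := (abs_le.1 (bnd (fun i => (abs_mul _ _).trans_le (mul_le_one₀ (φ1 (x i)) (abs_nonneg _)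
    (ψ1 (decide (i ∈ S))))) (zero_add (T j)).ge)).1
  have d3 := sum_Ico_consecutive (fun i => φ (x i) * ψ (decide (i ∈ S))) (T j).zero_le (T1 j.lt_succ_self).le
  have d4 : (Nat.count (· ∈ S) (T (j + 1)) : ℝ) ≤ T (j + 1) := by exact_mod_cast Nat.count_le _
  have np : (0 : ℝ) < T (j + 1) := by exact_mod_cast T0.ge.trans_lt (T1 j.succ_pos)
  have d5 := (le_abs_self _).trans ((abs_mul _ _).trans_le (mul_le_mul (ψ1 false) a (abs_nonneg _) zero_le_one))
  have d6 := (le_abs_self _).trans ((abs_mul _ _).trans_le (mul_le_mul ((abs_sub _ _).trans (add_le_add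
    (ψ1 true) (ψ1 false))) b (abs_nonneg _) (by norm_num)))
  rw [← range_eq_Ico (T (j + 1)), c] at d3
  change κ / 4 * T (j + 1) ≤ ∑ i ∈ Ico (T j) (T (j + 1)), _ at d1
  simp only [Function.comp] at d5 d6
  nlinarith [T2 j, K0 j, K0 (j + 1), mul_le_mul_of_nonneg_right (δ1 j) np.le,
    mul_le_mul_of_nonneg_left d4 κ0.le]

end Pool.Agent.H.MP_0c7e55_an
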